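import Pool.Agent.Helper3_PPX.Stmts

/-!
# Squad PPX, module STD: the use of the first order information and of the general position
-/

set_option autoImplicit false

universe u

namespace Pool.Agent.PPX.H96

open MvPolynomial Pool.Agent.PPX

theorem std (hnva : NvaStmt.{u}) (hsda : SdaStmt.{u}) (hsdb : SdbStmt.{u}) : StdStmt.{u} := by
  classical
  intro k _ _ N₁ N₂ a s b t K₀ M₀ v D hs hb hgp δ C hCi hCv hC3 i
  have hne : aeval ![MvPolynomial.C (a i), X 1, X 2, X 3] C ≠ (0 : P4 k) := by
    intro h0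
    obtain ⟨w, hw⟩ := hnva (a i) C hCi h0
    have h1 : sb (0 : k) C * sb (0 : k) (w : P4 k) ∈ v := Ideal.mul_mem_right _ _ (hCv 0)
    rw [← map_mul, hw] at h1
    have h2 : sb (0 : k) (X 0 - MvPolynomial.C (a i)) = inc (X 0 - MvPolynomial.C (a i)) := by
      simp [sb, inc]
    rw [h2] at h1
    have h3 := hs.plane _ h1
    have h4 := congrArg (eval (fun _ => a i + 1)) h3
    simp at h4
  set J : Finset (Fin N₂) := Finset.univ.filter fun j => Big (D i j) (δ + 1) with hJ
  set T : Finset (Fin N₂) := Finset.univ.filter fun j => D i j ≠ ⊤ with hT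
  obtain ⟨G, hG, hG0, hG1, hGv⟩ := hsdb (a i) (s i) b t (D i) C hb hne J
    (fun j hj => hsda a s b t K₀ M₀ v D hs δ C hCv hC3 i j (Finset.mem_filter.mp hj).2)
    (fun j c => hs.line _ (hCv c) i j)
  have e1 : {j | Big (D i j) (δ + 1)}.ncard = J.card := by
    rw [← Set.ncard_coe_finset]
    congr 1
    ext j
    simp [hJ]
  have e2 : {j | D i j ≠ ⊤}.ncard = T.card := by
    rw [← Set.ncard_coe_finset]
    congr 1
    ext j
    simp [hT]
  rw [e1, e2]
  refine ⟨by omega, ?_⟩
  by_cases h : 2 * ((degreeOf 1 C - J.card + 1) * (δ + 1)) ≤ N₂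
  · have := hgp (degreeOf 1 C - J.card) δ G T h hG (by omega) (by omega)
      (fun j hj => hGv j (Or.inr (Finset.mem_filter.mp hj).2))
    rw [mul_comm (δ + 1)]
    omega
  · have h1 : T.card ≤ N₂ := by
      simpa using Finset.card_le_univ T
    rw [mul_comm (δ + 1)]
    omega

end Pool.Agent.PPX.H96
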