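import Pool.Agent.Helper3_PPX.Stmts

/-!
# Squad PPX, module STC: lower bound for the dimensions
-/

set_option autoImplicit false

universe u

namespace Pool.Agent.PPX.H96

open MvPolynomial Pool.Agent.PPX

theorem stc (hgen : GenStmt.{u}) (hsca : ScaStmt.{u}) (hscb : ScbStmt.{u}) : StcStmt.{u} := by
  intro k _ _ v hv hpl e M' M d₁ R Q C hR hQ hRi hRQ hR1 hQ1 hR2 hR3 hQ2 hQ3 hCi hCv hCd hM
  rcases Nat.eq_zero_or_pos (degreeOf 1 C) with h0 | h0
  · rw [h0, mul_zero]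
    exact Nat.zero_le _
  · obtain ⟨E, _, _, f, c, hf⟩ := hgen v hv
    obtain ⟨hai, B, hB, hBp, hBl⟩ :=
      hsca v hv f c hf e M' R Q C hR hQ hRi hRQ hR1 hQ1 hR2 hR3 hQ2 hQ3 hCd h0
    have h := hscb v hv f c hf hai d₁ (2 * e) (4 * M') (M - 4 * M') B hBp hBl
    rw [Nat.sub_add_cancel hM, hB] at h
    exact h

end Pool.Agent.PPX.H96
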